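import Pool.Agent.R993.LU.Proj

/-! # The 5-qubit codes S_A and S_B are not locally unitarily equivalent

The set of supports of elements of S_A of weight three consists of two sets meeting in one qubit;
for S_B the two sets meet in two qubits.  Which sets of qubits are supports of stabilizer elements
is preserved by local unitaries, up to the permutation of the qubits. -/

namespace Pool.Agent.Results.MP_7af562_mp.FiveQubits

open Matrix Pool.Agent.R993.LU Pool.Agent.R993.LU.Pauli

/-- generators of S_A : ZZZZI, XXIIX, IIXXX -/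
def genA : Fin 3 → Fin 5 → Pauli :=
  ![![Z, Z, Z, Z, I], ![X, X, I, I, X], ![I, I, X, X, X]]

/-- generators of S_B : ZZIZX, XIZXI, IXXYI -/
def genB : Fin 3 → Fin 5 → Pauli :=
  ![![Z, Z, I, Z, X], ![X, I, Z, X, I], ![I, X, X, Y, I]]

theorem result : ¬ LUEquivalent (codespace genA) (codespace genB) := by
  intro h
  have comm : ∀ s t : Fin 5 → Pauli, Pool.Agent.R993.LU.smul s t = Pool.Agent.R993.LU.smul t s →
      (∏ i, (s i).phase (t i)) = (∏ i, (t i).phase (s i)) →
      pauliOp s * pauliOp t = pauliOp t * pauliOp s := by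
    intro s t h1 h2
    rw [pauliOp_mul, pauliOp_mul, h1, h2]
  have A01 : pauliOp ![Z, Z, Z, Z, I] * pauliOp ![X, X, I, I, X]
      = pauliOp ![X, X, I, I, X] * pauliOp ![Z, Z, Z, Z, I] :=
    comm _ _ (by decide) (by simp [Fin.prod_univ_succ, Pauli.phase])
  have A02 : pauliOp ![Z, Z, Z, Z, I] * pauliOp ![I, I, X, X, X]
      = pauliOp ![I, I, X, X, X] * pauliOp ![Z, Z, Z, Z, I] :=
    comm _ _ (by decide) (by simp [Fin.prod_univ_succ, Pauli.phase])
  have A12 : pauliOp ![X, X, I, I, X] * pauliOp ![I, I, X, X, X]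
      = pauliOp ![I, I, X, X, X] * pauliOp ![X, X, I, I, X] :=
    comm _ _ (by decide) (by simp [Fin.prod_univ_succ, Pauli.phase])
  have B01 : pauliOp ![Z, Z, I, Z, X] * pauliOp ![X, I, Z, X, I]
      = pauliOp ![X, I, Z, X, I] * pauliOp ![Z, Z, I, Z, X] :=
    comm _ _ (by decide) (by simp [Fin.prod_univ_succ, Pauli.phase])
  have B02 : pauliOp ![Z, Z, I, Z, X] * pauliOp ![I, X, X, Y, I]
      = pauliOp ![I, X, X, Y, I] * pauliOp ![Z, Z, I, Z, X] :=
    comm _ _ (by decide) (by simp [Fin.prod_univ_succ, Pauli.phase])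
  have B12 : pauliOp ![X, I, Z, X, I] * pauliOp ![I, X, X, Y, I]
      = pauliOp ![I, X, X, Y, I] * pauliOp ![X, I, Z, X, I] :=
    comm _ _ (by decide) (by simp [Fin.prod_univ_succ, Pauli.phase])
  obtain ⟨π, hπ⟩ := hits_of_equiv (proj3_isProj _ _ _ A01 A02 A12) (proj3_isProj _ _ _ B01 B02 B12) h
  have tA : (proj3 (![Z, Z, Z, Z, I] : Fin 5 → Pauli) ![X, X, I, I, X] ![I, I, X, X, X]).trace ≠ 0 := by
    rw [proj3_trace _ _ _ (by decide)]
    norm_num
  have hit1 := hπ _ (proj3_hits_gen _ _ _ (proj3_absorb _ _ _ A01 A02 A12 1) tA)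
  have hit2 := hπ _ (proj3_hits_gen _ _ _ (proj3_absorb _ _ _ A01 A02 A12 2) tA)
  have key : ∀ ω : Finset (Fin 5),
      Hits (proj3 (![Z, Z, I, Z, X] : Fin 5 → Pauli) ![X, I, Z, X, I] ![I, X, X, Y, I]) ω →
      ω.card = 3 → ω = {0, 2, 3} ∨ ω = {1, 2, 3} := by
    intro ω hω hc
    by_contra hne
    push Not at hne
    refine proj3_not_hits _ _ _ ω ?_ hω
    intro s hs hsω
    have hcard : (supp s).card = 3 := by rw [hsω]; exact hc
    have h1 : supp s ≠ {0, 2, 3} := by rw [hsω]; exact hne.1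
    have h2 : supp s ≠ {1, 2, 3} := by rw [hsω]; exact hne.2
    revert hcard h1 h2
    clear hsω
    revert s hs
    decide
  have c1 : ((supp ((![![Z, Z, Z, Z, I], ![X, X, I, I, X], ![I, I, X, X, X]]
      : Fin 3 → Fin 5 → Pauli) 1)).map π.toEmbedding).card = 3 := by
    rw [Finset.card_map]; decide
  have c2 : ((supp ((![![Z, Z, Z, Z, I], ![X, X, I, I, X], ![I, I, X, X, X]]
      : Fin 3 → Fin 5 → Pauli) 2)).map π.toEmbedding).card = 3 := by
    rw [Finset.card_map]; decide
  have k1 := key _ hit1 c1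
  have k2 := key _ hit2 c2
  have ci : (((supp ((![![Z, Z, Z, Z, I], ![X, X, I, I, X], ![I, I, X, X, X]]
      : Fin 3 → Fin 5 → Pauli) 1)).map π.toEmbedding) ∩ ((supp ((![![Z, Z, Z, Z, I],
      ![X, X, I, I, X], ![I, I, X, X, X]] : Fin 3 → Fin 5 → Pauli) 2)).map
      π.toEmbedding)).card = 1 := by
    rw [← Finset.map_inter, Finset.card_map]; decide
  rcases k1 with k1 | k1 <;> rcases k2 with k2 | k2 <;> rw [k1, k2] at ci <;>
    exact absurd ci (by decide)

end Pool.Agent.Results.MP_7af562_mp.FiveQubits
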