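import Pool.Agent.R993.LU.Proj

/-! # The 6-qubit codes S_+ and S_- are not locally unitarily equivalent

The elements of S_+ of weight four have three different supports, those of S_- all have the
same support.  Which sets of qubits are supports of stabilizer elements is preserved by local
unitaries, up to the permutation of the qubits. -/

namespace Pool.Agent.Results.MP_7af562_mp.SixQubits

open Matrix Pool.Agent.R993.LU Pool.Agent.R993.LU.Pauli

/-- generators of S_+ : XXIIXX, IIXXXX, ZZZZIX -/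
def genPlus : Fin 3 → Fin 6 → Pauli :=
  ![![X, X, I, I, X, X], ![I, I, X, X, X, X], ![Z, Z, Z, Z, I, X]]

/-- generators of S_- : XXZXII, ZZXYII, IZZZXX -/
def genMinus : Fin 3 → Fin 6 → Pauli :=
  ![![X, X, Z, X, I, I], ![Z, Z, X, Y, I, I], ![I, Z, Z, Z, X, X]]

theorem result : ¬ LUEquivalent (codespace genPlus) (codespace genMinus) := by
  intro h
  have comm : ∀ s t : Fin 6 → Pauli, Pool.Agent.R993.LU.smul s t = Pool.Agent.R993.LU.smul t s →
      (∏ i, (s i).phase (t i)) = (∏ i, (t i).phase (s i)) →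
      pauliOp s * pauliOp t = pauliOp t * pauliOp s := by
    intro s t h1 h2
    rw [pauliOp_mul, pauliOp_mul, h1, h2]
  have A01 : pauliOp ![X, X, I, I, X, X] * pauliOp ![I, I, X, X, X, X]
      = pauliOp ![I, I, X, X, X, X] * pauliOp ![X, X, I, I, X, X] :=
    comm _ _ (by decide) (by simp [Fin.prod_univ_succ, Pauli.phase])
  have A02 : pauliOp ![X, X, I, I, X, X] * pauliOp ![Z, Z, Z, Z, I, X]
      = pauliOp ![Z, Z, Z, Z, I, X] * pauliOp ![X, X, I, I, X, X] :=
    comm _ _ (by decide) (by simp [Fin.prod_univ_succ, Pauli.phase])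
  have A12 : pauliOp ![I, I, X, X, X, X] * pauliOp ![Z, Z, Z, Z, I, X]
      = pauliOp ![Z, Z, Z, Z, I, X] * pauliOp ![I, I, X, X, X, X] :=
    comm _ _ (by decide) (by simp [Fin.prod_univ_succ, Pauli.phase])
  have B01 : pauliOp ![X, X, Z, X, I, I] * pauliOp ![Z, Z, X, Y, I, I]
      = pauliOp ![Z, Z, X, Y, I, I] * pauliOp ![X, X, Z, X, I, I] :=
    comm _ _ (by decide) (by simp [Fin.prod_univ_succ, Pauli.phase])
  have B02 : pauliOp ![X, X, Z, X, I, I] * pauliOp ![I, Z, Z, Z, X, X]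
      = pauliOp ![I, Z, Z, Z, X, X] * pauliOp ![X, X, Z, X, I, I] :=
    comm _ _ (by decide) (by simp [Fin.prod_univ_succ, Pauli.phase])
  have B12 : pauliOp ![Z, Z, X, Y, I, I] * pauliOp ![I, Z, Z, Z, X, X]
      = pauliOp ![I, Z, Z, Z, X, X] * pauliOp ![Z, Z, X, Y, I, I] :=
    comm _ _ (by decide) (by simp [Fin.prod_univ_succ, Pauli.phase])
  obtain ⟨π, hπ⟩ := hits_of_equiv (proj3_isProj _ _ _ A01 A02 A12) (proj3_isProj _ _ _ B01 B02 B12) h
  have tA : (proj3 (![X, X, I, I, X, X] : Fin 6 → Pauli) ![I, I, X, X, X, X]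
      ![Z, Z, Z, Z, I, X]).trace ≠ 0 := by
    rw [proj3_trace _ _ _ (by decide)]
    norm_num
  have hit1 := hπ _ (proj3_hits_gen _ _ _ (proj3_absorb _ _ _ A01 A02 A12 0) tA)
  have hit2 := hπ _ (proj3_hits_gen _ _ _ (proj3_absorb _ _ _ A01 A02 A12 1) tA)
  have key : ∀ ω : Finset (Fin 6),
      Hits (proj3 (![X, X, Z, X, I, I] : Fin 6 → Pauli) ![Z, Z, X, Y, I, I]
        ![I, Z, Z, Z, X, X]) ω →
      ω.card = 4 → ω = {0, 1, 2, 3} := by
    intro ω hω hc
    by_contra hne
    refine proj3_not_hits _ _ _ ω ?_ hω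
    intro s hs hsω
    have hcard : (supp s).card = 4 := by rw [hsω]; exact hc
    have h1 : supp s ≠ {0, 1, 2, 3} := by rw [hsω]; exact hne
    revert hcard h1
    clear hsω
    revert s hs
    decide
  have c1 : ((supp ((![![X, X, I, I, X, X], ![I, I, X, X, X, X], ![Z, Z, Z, Z, I, X]]
      : Fin 3 → Fin 6 → Pauli) 0)).map π.toEmbedding).card = 4 := by
    rw [Finset.card_map]; decide
  have c2 : ((supp ((![![X, X, I, I, X, X], ![I, I, X, X, X, X], ![Z, Z, Z, Z, I, X]]
      : Fin 3 → Fin 6 → Pauli) 1)).map π.toEmbedding).card = 4 := by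
    rw [Finset.card_map]; decide
  have k1 := key _ hit1 c1
  have k2 := key _ hit2 c2
  have ci : (((supp ((![![X, X, I, I, X, X], ![I, I, X, X, X, X], ![Z, Z, Z, Z, I, X]]
      : Fin 3 → Fin 6 → Pauli) 0)).map π.toEmbedding) ∩ ((supp ((![![X, X, I, I, X, X],
      ![I, I, X, X, X, X], ![Z, Z, Z, Z, I, X]] : Fin 3 → Fin 6 → Pauli) 1)).map
      π.toEmbedding)).card = 2 := by
    rw [← Finset.map_inter, Finset.card_map]; decide
  rw [k1, k2] at ci
  exact absurd ci (by decide)

end Pool.Agent.Results.MP_7af562_mp.SixQubits
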